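import Pool.Agent.H343.QF.StS
import Pool.Graph.R_pool_sql_team_seeded_2aa45f1a.Q228.UR.Tree

set_option autoImplicit false
set_option linter.unusedSectionVars false

/-! # MP_9a852a_al, S6 : asymptotic cones which are R-trees -/

namespace Pool.Agent.H286.QF

open Pool.Agent.TH68 Pool.Agent.Helper97.Hyp Pool.Agent.H343.AN Pool.Agent.H343.QF Filter Topology

section path

variable {G : Type} [Group G] (V : WNorm G)

lemma path_aux (l : ℕ) : ∀ g : G, V.ℓ g = l →
    ∃ c : ℕ → G, c 0 = 1 ∧ c l = g ∧ ∀ i, V.ℓ ((c i)⁻¹ * c (i + 1)) ≤ 1 := by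
  induction l with
  | zero =>
    intro g hg
    refine ⟨fun _ => 1, rfl, (V.eq_one g hg).symm, fun i => ?_⟩
    simp [V.one']
  | succ l ih =>
    intro g hg
    obtain ⟨a, b, hab, ha, hb⟩ := V.geod g l (by omega)
    obtain ⟨c, h0, h1, h2⟩ := ih a ha
    refine ⟨fun i => if i ≤ l then c i else g, ?_, ?_, fun i => ?_⟩
    · simp [h0]
    · simp
    · rcases lt_trichotomy i l with hi | hi | hi
      · have e1 : i ≤ l := hi.le
        have e2 : i + 1 ≤ l := hi
        simp only [e1, e2, if_true]
        exact h2 i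
      · subst hi
        have e2 : ¬ (i + 1 ≤ i) := by omega
        simp only [le_refl, e2, if_true, if_false, h1]
        have : a⁻¹ * g = b := by rw [← hab]; group
        rw [this]; omega
      · have e1 : ¬ (i ≤ l) := by omega
        have e2 : ¬ (i + 1 ≤ l) := by omega
        simp only [e1, e2, if_false]
        simp [V.one']

lemma path (g : G) : ∃ c : ℕ → G, c 0 = 1 ∧ c (V.ℓ g) = g ∧
    ∀ i j, i ≤ j → j ≤ V.ℓ g → V.ℓ ((c i)⁻¹ * c j) = j - i := by
  obtain ⟨c, h0, h1, h2⟩ := path_aux V _ g rfl
  have hup : ∀ i k, V.ℓ ((c i)⁻¹ * c (i + k)) ≤ k := by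
    intro i k
    induction k with
    | zero => simp [V.one']
    | succ k ih =>
      have e : (c i)⁻¹ * c (i + (k + 1)) = ((c i)⁻¹ * c (i + k)) * ((c (i + k))⁻¹ * c (i + k + 1)) := by
        rw [← add_assoc]; group
      rw [e]
      have := V.mul_le ((c i)⁻¹ * c (i + k)) ((c (i + k))⁻¹ * c (i + k + 1))
      have := h2 (i + k)
      omega
  refine ⟨c, h0, h1, fun i j hij hj => ?_⟩
  obtain ⟨k, rfl⟩ := Nat.exists_eq_add_of_le hij
  obtain ⟨m, hm⟩ := Nat.exists_eq_add_of_le hj
  have u1 := hup i k
  have u2 := hup 0 i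
  have u3 := hup (i + k) m
  rw [← hm, h1] at u3
  rw [h0, zero_add] at u2
  have e : g = (1⁻¹ * c i) * (((c i)⁻¹ * c (i + k)) * ((c (i + k))⁻¹ * g)) := by group
  have m1 := V.mul_le (1⁻¹ * c i) (((c i)⁻¹ * c (i + k)) * ((c (i + k))⁻¹ * g))
  have m2 := V.mul_le ((c i)⁻¹ * c (i + k)) ((c (i + k))⁻¹ * g)
  rw [← e] at m1
  omega

end path

section cone

variable {G : Type} [Group G] (V : WNorm G) (S : Set G) (hV : ∀ g, V.ℓ g = wlen S g)
  (d : ℕ → ℝ) (hd : ∀ n, 0 < d n) (ω : Ultrafilter ℕ)

/-- the rescaled distances -/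
noncomputable def fq (x y : ℕ → G) (n : ℕ) : ℝ := (V.ℓ ((x n)⁻¹ * y n) : ℝ) / d n

include hV hd in
lemma fq_bdd (x y : Adm S d) : ∃ C : ℝ, ∀ n, fq V d x.1 y.1 n ∈ Set.Icc 0 C := by
  obtain ⟨x, Cx, hx⟩ := x
  obtain ⟨y, Cy, hy⟩ := y
  refine ⟨Cx + Cy, fun n => ⟨?_, ?_⟩⟩
  · exact div_nonneg (Nat.cast_nonneg _) (hd n).le
  · unfold fq
    rw [div_le_iff₀ (hd n)]
    have h1 := V.mul_le (x n)⁻¹ (y n)
    rw [V.inv'] at h1
    have h2 : (V.ℓ ((x n)⁻¹ * y n) : ℝ) ≤ V.ℓ (x n) + V.ℓ (y n) := by exact_mod_cast h1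
    have h3 := hx n
    have h4 := hy n
    rw [← hV] at h3 h4
    simp only
    linarith

include hV hd in
lemma fq_lim (x y : Adm S d) : ∃ L : ℝ, Tendsto (fq V d x.1 y.1) (ω : Filter ℕ) (𝓝 L) := by
  obtain ⟨C, hC⟩ := fq_bdd V S hV d hd x y
  have h := isCompact_Icc (a := (0:ℝ)) (b := C)
  have h2 := h.ultrafilter_le_nhds (ω.map (fq V d x.1 y.1)) (by
    rw [le_principal_iff, Ultrafilter.mem_coe, Ultrafilter.mem_map]
    exact Filter.Eventually.of_forall hC)
  obtain ⟨L, -, hL⟩ := h2
  exact ⟨L, hL⟩

/-- the limit distance -/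
noncomputable def dq (x y : Adm S d) : ℝ := limUnder (ω : Filter ℕ) (fq V d x.1 y.1)

include hV hd in
lemma dq_tendsto (x y : Adm S d) :
    Tendsto (fq V d x.1 y.1) (ω : Filter ℕ) (𝓝 (dq V S d ω x y)) :=
  tendsto_nhds_limUnder (fq_lim V S hV d hd ω x y)

/-- the pseudometric space of the admissible sequences -/
@[instance_reducible] noncomputable def psm : PseudoMetricSpace (Adm S d) where
  dist := dq V S d ω
  dist_self x := by
    refine tendsto_nhds_unique (dq_tendsto V S hV d hd ω x x) ?_
    have : fq V d x.1 x.1 = fun _ => 0 := by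
      funext n
      simp [fq, V.one']
    rw [this]
    exact tendsto_const_nhds
  dist_comm x y := by
    refine tendsto_nhds_unique (dq_tendsto V S hV d hd ω x y) ?_
    have : fq V d x.1 y.1 = fq V d y.1 x.1 := by
      funext n
      have e : ((x.1 n)⁻¹ * y.1 n)⁻¹ = (y.1 n)⁻¹ * x.1 n := by group
      simp only [fq]
      rw [← e, V.inv']
    rw [this]
    exact dq_tendsto V S hV d hd ω y x
  dist_triangle x y z := by
    refine le_of_tendsto_of_tendsto (dq_tendsto V S hV d hd ω x z)
      ((dq_tendsto V S hV d hd ω x y).add (dq_tendsto V S hV d hd ω y z))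
      (Filter.Eventually.of_forall fun n => ?_)
    simp only [fq]
    rw [← add_div]
    refine div_le_div_of_nonneg_right ?_ (hd n).le
    have h1 := V.mul_le ((x.1 n)⁻¹ * y.1 n) ((y.1 n)⁻¹ * z.1 n)
    have e : (x.1 n)⁻¹ * y.1 n * ((y.1 n)⁻¹ * z.1 n) = (x.1 n)⁻¹ * z.1 n := by group
    rw [e] at h1
    exact_mod_cast h1

end cone

theorem cone : S_cone := by
  intro G _ V S hV δ r d hd hdt hδ hr h4 ω hω
  have hω' : (ω : Filter ℕ) ≤ atTop := by rwa [← Nat.cofinite_eq_atTop]
  let P : PseudoMetricSpace (Adm S d) := psm V S hV d hd ω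
  have hdist : ∀ x y : Adm S d, Tendsto (fq V d x.1 y.1) (ω : Filter ℕ) (𝓝 (dist x y)) :=
    dq_tendsto V S hV d hd ω
  refine ⟨SeparationQuotient (Adm S d), inferInstance, ⟨SeparationQuotient.mk,
    SeparationQuotient.surjective_mk, fun x y => ?_⟩, ?_⟩
  · rw [SeparationQuotient.dist_mk]
    have := hdist x y
    unfold fq at this
    simpa only [hV] using this
  · refine Pool.Agent.Q228.UR.isRTree_of ?_ ?_
    · intro a b c e
      obtain ⟨a, rfl⟩ := SeparationQuotient.surjective_mk a
      obtain ⟨b, rfl⟩ := SeparationQuotient.surjective_mk b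
      obtain ⟨c, rfl⟩ := SeparationQuotient.surjective_mk c
      obtain ⟨e, rfl⟩ := SeparationQuotient.surjective_mk e
      simp only [SeparationQuotient.dist_mk]
      have key : ∀ x : Adm S d, ∀ᶠ n in (ω : Filter ℕ), dist (pt V 1) (pt V (x.1 n)) ≤ r n := by
        rintro ⟨x, C, hx⟩
        have h1 : ∀ᶠ n in atTop, C ≤ r n / d n := hr.eventually_ge_atTop C
        filter_upwards [hω' h1] with n hn
        rw [le_div_iff₀ (hd n)] at hn
        rw [dist_def]
        simp only [out_pt, inv_one, one_mul]
        rw [hV]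
        exact (hx n).trans hn
      have hlim : Tendsto (fun n => max (fq V d a.1 c.1 n + fq V d b.1 e.1 n)
          (fq V d a.1 e.1 n + fq V d b.1 c.1 n) + 2 * (δ n / d n)) (ω : Filter ℕ)
          (𝓝 (max (dist a c + dist b e) (dist a e + dist b c) + 2 * 0)) :=
        (((hdist a c).add (hdist b e)).max ((hdist a e).add (hdist b c))).add
          ((hδ.mono_left hω').const_mul 2)
      rw [mul_zero, add_zero] at hlim
      refine le_of_tendsto_of_tendsto ((hdist a b).add (hdist c e)) hlim ?_
      filter_upwards [key a, key b, key c, key e] with n ha hb hc he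
      have h := h4 n _ _ _ _ ha hb hc he
      simp only [dist_def, out_pt] at h
      have hdn := hd n
      have : fq V d a.1 b.1 n + fq V d c.1 e.1 n =
          ((V.ℓ ((a.1 n)⁻¹ * b.1 n) : ℝ) + V.ℓ ((c.1 n)⁻¹ * e.1 n)) / d n := by
        simp only [fq]; rw [add_div]
      rw [this, div_le_iff₀ hdn]
      refine h.trans (le_of_eq ?_)
      rw [add_mul, max_mul_of_nonneg _ _ hdn.le]
      simp only [fq]
      congr 1
      · congr 1 <;> field_simp
      · field_simp
    · intro X Y hXY
      obtain ⟨x, rfl⟩ := SeparationQuotient.surjective_mk X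
      obtain ⟨y, rfl⟩ := SeparationQuotient.surjective_mk Y
      have hD : 0 < dist x y := by
        have := dist_pos.2 hXY
        rwa [SeparationQuotient.dist_mk] at this
      rw [SeparationQuotient.dist_mk]
      set D := dist x y with hDd
      choose c hc0 hc1 hc using fun n => path V ((x.1 n)⁻¹ * y.1 n)
      set l : ℕ → ℕ := fun n => V.ℓ ((x.1 n)⁻¹ * y.1 n) with hl
      set ix : ℝ → ℕ → ℕ := fun t n => min ⌊t / D * l n⌋₊ (l n) with hix
      have hixl : ∀ t n, ix t n ≤ l n := fun t n => min_le_right _ _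
      have hadm : ∀ t, ∃ C : ℝ, ∀ n, (wlen S (x.1 n * c n (ix t n)) : ℝ) ≤ C * d n := by
        intro t
        obtain ⟨C1, h1⟩ := fq_bdd V S hV d hd x y
        obtain ⟨C2, h2⟩ := x.2
        refine ⟨C2 + C1, fun n => ?_⟩
        rw [← hV]
        have e1 := V.mul_le (x.1 n) (c n (ix t n))
        have e2 := hc n 0 (ix t n) (Nat.zero_le _) (hixl t n)
        rw [hc0, inv_one, one_mul] at e2
        have e3 := h2 n
        rw [← hV] at e3
        have e4 := (h1 n).2
        unfold fq at e4
        rw [div_le_iff₀ (hd n)] at e4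
        have e5 : (V.ℓ (x.1 n * c n (ix t n)) : ℝ) ≤ V.ℓ (x.1 n) + l n := by
          have := hixl t n
          exact_mod_cast (by omega : V.ℓ (x.1 n * c n (ix t n)) ≤ V.ℓ (x.1 n) + l n)
        have e6 : ((l n : ℕ) : ℝ) ≤ C1 * d n := e4
        linarith
      set z : ℝ → Adm S d := fun t => ⟨fun n => x.1 n * c n (ix t n), hadm t⟩ with hz
      have hlt : Tendsto (fun n => (l n : ℝ) / d n) (ω : Filter ℕ) (𝓝 D) := hdist x y
      have hdi : Tendsto (fun n => 1 / d n) (ω : Filter ℕ) (𝓝 0) := by
        have h := (hdt.mono_left hω').inv_tendsto_atTop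
        refine h.congr fun n => ?_
        rw [Pi.inv_apply, one_div]
      have hmain : ∀ s ∈ Set.Icc (0:ℝ) D, ∀ t ∈ Set.Icc (0:ℝ) D, s ≤ t → dist (z s) (z t) = t - s := by
        intro s hs t ht hst
        refine tendsto_nhds_unique (hdist (z s) (z t)) ?_
        have hix' : ∀ t ∈ Set.Icc (0:ℝ) D, ∀ n, (ix t n : ℝ) ≤ t / D * l n ∧ t / D * l n < ix t n + 1 := by
          intro t ht n
          have h0 : 0 ≤ t / D * l n := by
            have := ht.1
            positivity
          have h1 : t / D ≤ 1 := by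
            rw [div_le_one hD]; exact ht.2
          have h2 : t / D * l n ≤ l n := by
            calc t / D * l n ≤ 1 * l n := by gcongr
              _ = l n := one_mul _
          have h3 : ⌊t / D * l n⌋₊ ≤ l n := by
            have := Nat.floor_le_floor h2
            rwa [Nat.floor_natCast] at this
          have h4 : ix t n = ⌊t / D * l n⌋₊ := min_eq_left h3
          rw [h4]
          exact ⟨Nat.floor_le h0, Nat.lt_floor_add_one _⟩
        have hmono : ∀ n, ix s n ≤ ix t n := by
          intro n
          refine min_le_min_right _ (Nat.floor_le_floor ?_)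
          gcongr
        have hval : ∀ n, fq V d (z s).1 (z t).1 n = ((ix t n : ℝ) - ix s n) / d n := by
          intro n
          have e : ((z s).1 n)⁻¹ * (z t).1 n = (c n (ix s n))⁻¹ * c n (ix t n) := by
            simp only [hz]; group
          unfold fq
          rw [e, hc n _ _ (hmono n) (hixl t n), Nat.cast_sub (hmono n)]
        have hA : Tendsto (fun n => (t - s) / D * ((l n : ℝ) / d n)) (ω : Filter ℕ) (𝓝 (t - s)) := by
          have := hlt.const_mul ((t - s) / D)
          rwa [div_mul_cancel₀ _ hD.ne'] at this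
        have hB := (hA.sub hdi)
        have hC := (hA.add hdi)
        rw [sub_zero] at hB
        rw [add_zero] at hC
        refine tendsto_of_tendsto_of_tendsto_of_le_of_le hB hC (fun n => ?_) (fun n => ?_)
        · simp only
          rw [hval]
          obtain ⟨a1, a2⟩ := hix' s hs n
          obtain ⟨b1, b2⟩ := hix' t ht n
          have hdn := hd n
          have e : (t - s) / D * ((l n : ℝ) / d n) - 1 / d n = (t / D * l n - s / D * l n - 1) / d n := by
            field_simp
          rw [e]
          refine div_le_div_of_nonneg_right ?_ hdn.le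
          linarith
        · simp only
          rw [hval]
          obtain ⟨a1, a2⟩ := hix' s hs n
          obtain ⟨b1, b2⟩ := hix' t ht n
          have hdn := hd n
          have e : (t - s) / D * ((l n : ℝ) / d n) + 1 / d n = (t / D * l n - s / D * l n + 1) / d n := by
            field_simp
          rw [e]
          refine div_le_div_of_nonneg_right ?_ hdn.le
          linarith
      refine ⟨fun t => SeparationQuotient.mk (z t), ?_, ?_, ?_⟩
      · have : z 0 = x := by
          apply Subtype.ext
          funext n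
          simp only [hz, hix]
          simp [hc0]
        simp only [this]
      · have : z D = y := by
          apply Subtype.ext
          funext n
          simp only [hz, hix]
          rw [div_self hD.ne', one_mul, Nat.floor_natCast, min_self, hl]
          simp only
          rw [hc1]
          group
        simp only [this]
      · intro a ha b hb
        rw [SeparationQuotient.dist_mk]
        rcases le_total a b with h | h
        · rw [hmain a ha b hb h, abs_sub_comm, abs_of_nonneg (by linarith)]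
        · rw [dist_comm, hmain b hb a ha h, abs_of_nonneg (by linarith)]

end Pool.Agent.H286.QF
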